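import Pool.Agent.helper13.U4.SpecY

/-!
# Row u4:ONA (at most one conflict, large sums)
-/

set_option autoImplicit false

namespace Pool.Agent.U4

open Pool.Agent.UL

theorem ONA_par {k q h v : ℕ} (hP : Par k q h v) : v % 2 = 1 ∧ 4 ≤ h ∧ 15 * h ≤ v + 1 := by
  obtain ⟨hk, hh, hq, hv⟩ := hP
  have h4 : h = 4 * 2 ^ (k - 2) := by
    rw [hh]
    have h1 : k = 2 + (k - 2) := by omega
    conv_lhs => rw [h1, pow_add]
    norm_num
  have h5 : 1 ≤ 2 ^ (k - 2) := Nat.one_le_two_pow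
  have h6 : 2 * h * 7 ≤ 2 * h * q := Nat.mul_le_mul_left _ hq
  have h7 : 2 * h * q = 2 * (h * q) := by ring
  refine ⟨?_, by omega, by omega⟩
  omega

theorem ONA_sum (h1 : CEL_stmt) (k q h v ρ σ : ℕ) (hP : Par k q h v) (hρ : 4 * h + 17 ≤ ρ) (hσ : σ < v)
    (t r t' r' : ℕ) (hc : Om h v (v - 1) t r) (hc' : Om h v (v - 1) t' r')
    (hs : ((v : ℤ) * r + 2 * t) + ((v : ℤ) * r' + 2 * t') = (v : ℤ) * ρ + 2 * σ) : False := by
  obtain ⟨hodd, hh4, hv15⟩ := ONA_par hP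
  have ht : t < v := by
    rcases hc with h | h
    · exact h.2.1
    · omega
  have ht' : t' < v := by
    rcases hc' with h | h
    · exact h.2.1
    · omega
  rcases (h1 v hodd).2 t r t' r' ρ σ ht ht' hσ hs with ⟨e1, e2⟩ | ⟨e1, e2⟩
  · have hr : r ≤ 2 * h + 8 := by
      rcases hc with ⟨_, _, h | h⟩ | h <;> omega
    have hr' : r' ≤ 2 * h + 8 := by
      rcases hc' with ⟨_, _, h | h⟩ | h <;> omega
    omega
  · have hr : r ≤ 2 * h + 8 := by
      rcases hc with ⟨_, _, h | h⟩ | h <;> omega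
    have hr' : r' ≤ 2 * h + 8 := by
      rcases hc' with ⟨_, _, h | h⟩ | h <;> omega
    have hT : t ≤ 3 * h + 5 := by
      rcases hc with ⟨_, _, h | h⟩ | h <;> omega
    have hT' : t' ≤ 3 * h + 5 := by
      rcases hc' with ⟨_, _, h | h⟩ | h <;> omega
    omega

theorem ONA (h1 : CEL_stmt) : ONA_stmt := by
  intro k q h v F ρ σ hP hF hρ hσ hT t r t' r' hc hc' hx hy hx' hy'
  obtain ⟨hodd, hh4, hv15⟩ := ONA_par hP
  have ht : t < v := by
    rcases hc with h | h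
    · exact h.2.1
    · omega
  have ht' : t' < v := by
    rcases hc' with h | h
    · exact h.2.1
    · omega
  have hs := ONA_sum h1 k q h v ρ σ hP hρ hσ
  have hFa : F ((v : ℤ) * r + 2 * t) = true := hx
  have hFc : F ((v : ℤ) * r' + 2 * t') = true := hx'
  have hFa' : F (((v : ℤ) * ρ + 2 * σ) - ((v : ℤ) * r + 2 * t)) = true := by
    have h2 : ((v : ℤ) * ρ + 2 * σ) - ((v : ℤ) * r + 2 * t) =
        ((v : ℤ) * ρ + 2 * σ) - (v : ℤ) * r - 2 * t := by ring
    rw [h2]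
    exact hy
  have hFc' : F (((v : ℤ) * ρ + 2 * σ) - ((v : ℤ) * r' + 2 * t')) = true := by
    have h2 : ((v : ℤ) * ρ + 2 * σ) - ((v : ℤ) * r' + 2 * t') =
        ((v : ℤ) * ρ + 2 * σ) - (v : ℤ) * r' - 2 * t' := by ring
    rw [h2]
    exact hy'
  by_contra hne
  apply hT
  refine ⟨(v : ℤ) * r + 2 * t, (v : ℤ) * r' + 2 * t', hFa, hFa', hFc, hFc', ?_, ?_, ?_, ?_⟩
  · intro h2
    exact hs t r t r hc hc (by linarith)
  · intro h2
    exact hs t' r' t' r' hc' hc' (by linarith)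
  · intro h2
    exact hne ((h1 v hodd).1 t r t' r' ht ht' h2.symm)
  · intro h2
    exact hs t r t' r' hc hc' (by linarith)

end Pool.Agent.U4
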